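import Pool.Agent.Helper75.PZ.GoalsB

/-!
# Project PZ (MP_acfd82_an): packet DMT
-/

set_option autoImplicit false

namespace Pool.Agent.Helper59.PZ

open Finset Filter Topology Pool.Agent.Helper75.PZ

/-- A copy of the real line. -/
@[ext] structure RL where
  v : ℝ

/-- The metric `φ(|u - v|)`. -/
noncomputable abbrev metr (φ : ℝ → ℝ) (h0 : φ 0 = 0) (h1 : ∀ t, 0 ≤ t → t ≤ φ t)
    (h2 : ∀ a b, 0 ≤ a → a ≤ b → φ a ≤ φ b)
    (h3 : ∀ a b, 0 ≤ a → 0 ≤ b → φ (a + b) ≤ φ a + φ b) : MetricSpace RL where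
  dist a b := φ |a.v - b.v|
  dist_self a := by
    show φ |a.v - a.v| = 0
    rw [sub_self, abs_zero, h0]
  dist_comm a b := by
    show φ |a.v - b.v| = φ |b.v - a.v|
    rw [abs_sub_comm]
  dist_triangle a b c := by
    show φ |a.v - c.v| ≤ φ |a.v - b.v| + φ |b.v - c.v|
    exact (h2 _ _ (abs_nonneg _) (abs_sub_le a.v b.v c.v)).trans
      (h3 _ _ (abs_nonneg _) (abs_nonneg _))
  eq_of_dist_eq_zero := by
    intro a b h
    have h' : φ |a.v - b.v| = 0 := h
    have h4 := h1 _ (abs_nonneg (a.v - b.v))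
    rw [h'] at h4
    have h5 : |a.v - b.v| = 0 := le_antisymm h4 (abs_nonneg _)
    exact RL.ext (sub_eq_zero.1 (abs_eq_zero.1 h5))

theorem dmt (h1 : P_PHI) : P_DMT := by
  intro w hw hw0 hns
  obtain ⟨φ, p0, p1, p2, p3, p4, p5, p6⟩ := h1 w hw hw0 hns
  let mm : MetricSpace RL := metr φ p0 p1 p2 p3
  have hd : ∀ a b : RL, dist a b = φ |a.v - b.v| := fun a b => rfl
  have hle : ∀ a b : RL, |a.v - b.v| ≤ dist a b := fun a b => p1 _ (abs_nonneg _)
  have hcomp : CompleteSpace RL := by
    apply Metric.complete_of_cauchySeq_tendsto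
    intro u hu
    have hc : CauchySeq (fun n => (u n).v) := by
      rw [Metric.cauchySeq_iff] at hu ⊢
      intro ε hε
      obtain ⟨N, hN⟩ := hu ε hε
      refine ⟨N, fun m hm n hn => ?_⟩
      rw [Real.dist_eq]
      exact (hle _ _).trans_lt (hN m hm n hn)
    obtain ⟨l, hl⟩ := cauchySeq_tendsto_of_complete hc
    refine ⟨⟨l⟩, ?_⟩
    rw [Metric.tendsto_atTop] at hl ⊢
    intro ε hε
    obtain ⟨δ, hδ, h4⟩ := p4 ε hε
    obtain ⟨N, hN⟩ := hl δ hδ
    refine ⟨N, fun n hn => ?_⟩
    rw [hd]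
    have h5 := hN n hn
    rw [Real.dist_eq] at h5
    exact h4 _ (abs_nonneg _) h5
  refine ⟨RL, mm, hcomp, ?_, ⟨0⟩, ⟨1⟩, ?_⟩
  · intro u v huv
    have hne : u.v ≠ v.v := fun h => huv (RL.ext h)
    have ht : 0 < |u.v - v.v| := abs_pos.2 (sub_ne_zero.2 hne)
    have e1 : |u.v - (u.v + v.v) / 2| = |u.v - v.v| / 2 := by
      have : u.v - (u.v + v.v) / 2 = (u.v - v.v) / 2 := by ring
      rw [this, abs_div, abs_two]
    have e2 : |v.v - (u.v + v.v) / 2| = |u.v - v.v| / 2 := by
      have : v.v - (u.v + v.v) / 2 = -((u.v - v.v) / 2) := by ring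
      rw [this, abs_neg, abs_div, abs_two]
    refine ⟨⟨(u.v + v.v) / 2⟩, ?_, ?_, ?_⟩
    · intro h
      have h' := congrArg RL.v h
      simp only at h'
      apply hne
      linarith
    · intro h
      have h' := congrArg RL.v h
      simp only at h'
      apply hne
      linarith
    · unfold gp
      rw [hd, hd, hd]
      simp only [e1, e2, min_self]
      have h6 := p5 _ ht
      have h7 : |u.v - v.v| ≤ φ |u.v - v.v| := p1 _ ht.le
      have h8 : |u.v - v.v| / 2 ≤ φ (|u.v - v.v| / 2) := p1 _ (by linarith)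
      have h9 : w |u.v - v.v| ≤ w (φ |u.v - v.v|) := hw h7
      have h10 : w |u.v - v.v| * (|u.v - v.v| / 2) ≤
          w (φ |u.v - v.v|) * φ (|u.v - v.v| / 2) :=
        mul_le_mul h9 h8 (by linarith) (hw0 _)
      linarith
  · rintro ⟨γ, hγ, hγ0, hγ1, hfin⟩
    obtain ⟨g, hg⟩ : ∃ g : ℝ → ℝ, g = fun u => (γ u).v := ⟨_, rfl⟩
    have hgc : Continuous g := by
      rw [hg, Metric.continuous_iff]
      intro b ε hε
      obtain ⟨δ, hδ, h4⟩ := Metric.continuous_iff.1 hγ b ε hε
      refine ⟨δ, hδ, fun a ha => ?_⟩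
      rw [Real.dist_eq]
      exact (hle _ _).trans_lt (h4 a ha)
    have hg0 : g 0 = 0 := by rw [hg]; show (γ 0).v = 0; rw [hγ0]
    have hg1 : g 1 = 1 := by rw [hg]; show (γ 1).v = 1; rw [hγ1]
    -- the variation is at least `L`
    have key : ∀ L : ℝ, 0 ≤ L → ENNReal.ofReal L ≤ eVariationOn γ (Set.Icc 0 1) := by
      intro L hL
      obtain ⟨δ, hδ, h6⟩ := p6 L
      have huc : UniformContinuousOn g (Set.Icc 0 1) :=
        isCompact_Icc.uniformContinuousOn_of_continuous hgc.continuousOn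
      rw [Metric.uniformContinuousOn_iff] at huc
      obtain ⟨η, hη, h7⟩ := huc δ hδ
      obtain ⟨N, hN⟩ := exists_nat_gt (1 / η)
      have hN0 : (0 : ℝ) < N := lt_trans (by positivity) hN
      have hNn : 0 < N := by exact_mod_cast hN0
      obtain ⟨u, hu⟩ : ∃ u : ℕ → ℝ, u = fun i : ℕ => min ((i : ℝ) / N) 1 := ⟨_, rfl⟩
      have hui : ∀ i, i ≤ N → u i = (i : ℝ) / N := by
        intro i hi
        rw [hu]
        apply min_eq_left
        rw [div_le_one hN0]
        exact_mod_cast hi
      have humem : ∀ i, u i ∈ Set.Icc (0 : ℝ) 1 := by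
        intro i
        rw [hu]
        exact ⟨le_min (by positivity) zero_le_one, min_le_right _ _⟩
      have hum : Monotone u := by
        intro i j hij
        rw [hu]
        apply min_le_min _ le_rfl
        gcongr
      have h8 := eVariationOn.sum_le (f := γ) (n := N) hum humem
      refine le_trans ?_ h8
      have h9 : ∀ i ∈ range N, ENNReal.ofReal (L * |g (u (i + 1)) - g (u i)|) ≤
          edist (γ (u (i + 1))) (γ (u i)) := by
        intro i hi
        have hi' : i < N := Finset.mem_range.1 hi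
        rw [edist_dist]
        apply ENNReal.ofReal_le_ofReal
        have h10 : dist (g (u (i + 1))) (g (u i)) < δ := by
          apply h7 _ (humem _) _ (humem _)
          rw [hui (i + 1) hi', hui i hi'.le, Real.dist_eq]
          have : ((i + 1 : ℕ) : ℝ) / N - (i : ℝ) / N = 1 / N := by
            push_cast; ring
          rw [this, abs_of_nonneg (by positivity), one_div_lt hN0 hη]
          exact hN
        rw [Real.dist_eq] at h10
        have h11 := h6 _ (abs_nonneg _) h10.le
        have h12 : dist (γ (u (i + 1))) (γ (u i)) = φ |g (u (i + 1)) - g (u i)| := by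
          rw [hd, hg]
        rw [h12]
        exact h11
      have h13 : L ≤ ∑ i ∈ range N, L * |g (u (i + 1)) - g (u i)| := by
        have h16 : ∑ i ∈ range N, (g (u (i + 1)) - g (u i)) = 1 := by
          rw [Finset.sum_range_sub (fun i => g (u i)), hui N le_rfl,
            hui 0 (Nat.zero_le _), div_self hN0.ne', Nat.cast_zero, zero_div, hg0, hg1, sub_zero]
        rw [← Finset.mul_sum]
        have h17 : (1 : ℝ) ≤ ∑ i ∈ range N, |g (u (i + 1)) - g (u i)| := by
          rw [← h16]
          exact Finset.sum_le_sum fun i _ => le_abs_self _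
        nlinarith
      refine le_trans (ENNReal.ofReal_le_ofReal h13) ?_
      rw [ENNReal.ofReal_sum_of_nonneg fun i _ => mul_nonneg hL (abs_nonneg _)]
      exact Finset.sum_le_sum h9
    have h14 := key ((eVariationOn γ (Set.Icc 0 1)).toReal + 1)
      (by have := ENNReal.toReal_nonneg (a := eVariationOn γ (Set.Icc 0 1)); linarith)
    have h15 := ENNReal.toReal_mono hfin h14
    rw [ENNReal.toReal_ofReal (by
      have := ENNReal.toReal_nonneg (a := eVariationOn γ (Set.Icc 0 1)); linarith)] at h15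
    linarith

end Pool.Agent.Helper59.PZ
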